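import Pool.Agent.Helper70.U8

/-!
# Project BC: `A ξ` is a core for `Δ^½` (field `core` of the standard form)
-/

open scoped InnerProductSpace Topology BoundedContinuousFunction
open ContinuousLinearMap Filter MeasureTheory

namespace Pool.Agent.Helper20.BC

open Pool.Agent.Helper23 Pool.Agent.Helper70.U8
open Pool.Agent.Helper43.TTF (FC JD)

variable {H : Type*} [NormedAddCommGroup H] [InnerProductSpace ℂ H] [CompleteSpace H]
variable {A : VonNeumannAlgebra H} {ξ : H} {R : H →L[ℂ] H} {D : H →L[ℝ] H}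
  {Ψ : (ℝ →ᵇ ℂ) →⋆ₐ[ℂ] (H →L[ℂ] H)} {J : H →L[ℝ] H}

/-- a compactly supported function divided by a Gaussian -/
theorem exists_quot (G : ℝ →ᵇ ℂ) (hG : HasCompactSupport G) :
    ∃ K : ℝ →ᵇ ℂ, GB 1 one_pos 0 * K = G := by
  have hc : Continuous fun ρ : ℝ => ((Real.exp (ρ ^ 2) : ℝ) : ℂ) * G ρ :=
    (by fun_prop : Continuous fun ρ : ℝ => ((Real.exp (ρ ^ 2) : ℝ) : ℂ)).mul G.continuous
  have hs : HasCompactSupport fun ρ : ℝ => ((Real.exp (ρ ^ 2) : ℝ) : ℂ) * G ρ := hG.mul_left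
  obtain ⟨C, hC⟩ := hc.bounded_above_of_compact_support hs
  refine ⟨BoundedContinuousFunction.ofNormedAddCommGroup _ hc C hC, ?_⟩
  ext ρ
  rw [BoundedContinuousFunction.mul_apply, GB_apply]
  change _ * (((Real.exp (ρ ^ 2) : ℝ) : ℂ) * G ρ) = G ρ
  rw [← mul_assoc, ← Complex.ofReal_mul, ← Real.exp_add]
  have : -(1 * ρ ^ 2) + 0 * ρ + ρ ^ 2 = 0 := by ring
  rw [this, Real.exp_zero, Complex.ofReal_one, one_mul]

theorem core (h : Modular A ξ R D Ψ) (hF : FC R D Ψ) (hJ : JD D Ψ J)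
    (hcyc : ∀ v : H, ∀ ε : ℝ, 0 < ε → ∃ a ∈ A, ‖a ξ - v‖ < ε)
    (G G' : ℝ →ᵇ ℂ) (hG : HasCompactSupport G)
    (hG' : ∀ ρ, G' ρ = ((Real.exp (ρ / 2) : ℝ) : ℂ) * G ρ) (θ : H) (ε : ℝ) (hε : 0 < ε) :
    ∃ b ∈ A, ‖b ξ - Ψ G θ‖ ≤ ε ∧ ‖J ((star b) ξ) - Ψ G' θ‖ ≤ ε := by
  obtain ⟨K, hK⟩ := exists_quot G hG
  have hK' : GB 1 one_pos (1 / 2) * K = G' := by
    ext ρ
    have h1 : G ρ = GB 1 one_pos 0 ρ * K ρ := by
      rw [← BoundedContinuousFunction.mul_apply, hK]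
    rw [BoundedContinuousFunction.mul_apply, hG', h1, GB_apply, GB_apply, ← mul_assoc,
      ← Complex.ofReal_mul, ← Real.exp_add]
    congr 3
    ring
  set c0 : ℝ := ‖Ψ (GB 1 one_pos 0)‖ + ‖Ψ (GB 1 one_pos (1 / 2))‖ + 1 with hc0
  have hc0pos : 0 < c0 := by positivity
  obtain ⟨z, hz, hzv⟩ := hcyc (Ψ K θ) (ε / c0) (by positivity)
  have hmul : c0 * (ε / c0) = ε := by field_simp
  have e1 : sm h (kg_int one_pos 0) z ξ = Ψ (GB 1 one_pos 0) (z ξ) :=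
    sm_xi h _ (K := GB 1 one_pos 0) (fun ρ => by rw [GB_apply]; exact kg_fourier one_pos _ ρ) z
  have e2 : (star (sm h (kg_int one_pos 0) z)) ξ = Ψ (GB 1 one_pos 0) ((star z) ξ) := by
    rw [sm_star h _ (kg_real _)]
    exact sm_xi h _ (K := GB 1 one_pos 0)
      (fun ρ => by rw [GB_apply]; exact kg_fourier one_pos _ ρ) (star z)
  have e3 : J ((star (sm h (kg_int one_pos 0) z)) ξ) = Ψ (GB 1 one_pos (1 / 2)) (z ξ) := by
    have := J_psi h.data hF hJ (one_pos : (0 : ℝ) < 1) (star_mem hz)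
    rw [star_star] at this
    rw [e2, ← this, hJ.J_J]
  refine ⟨sm h (kg_int one_pos 0) z, sm_mem h _ h.mem hz, ?_, ?_⟩
  · rw [e1, ← hK, Pool.Agent.Helper43.TTF.psi_mul_apply, ← map_sub]
    refine (ContinuousLinearMap.le_opNorm _ _).trans ?_
    calc ‖Ψ (GB 1 one_pos 0)‖ * ‖z ξ - Ψ K θ‖ ≤ c0 * (ε / c0) := by
          refine mul_le_mul ?_ hzv.le (norm_nonneg _) hc0pos.le
          have := norm_nonneg (Ψ (GB 1 one_pos (1 / 2)))
          linarith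
      _ = ε := hmul
  · rw [e3, ← hK', Pool.Agent.Helper43.TTF.psi_mul_apply, ← map_sub]
    refine (ContinuousLinearMap.le_opNorm _ _).trans ?_
    calc ‖Ψ (GB 1 one_pos (1 / 2))‖ * ‖z ξ - Ψ K θ‖ ≤ c0 * (ε / c0) := by
          refine mul_le_mul ?_ hzv.le (norm_nonneg _) hc0pos.le
          have := norm_nonneg (Ψ (GB 1 one_pos 0))
          linarith
      _ = ε := hmul

end Pool.Agent.Helper20.BC
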